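import Pool.Agent.Q17.EndN.Top

namespace Q17.EndN

open Set Topology Filter
open scoped ENNReal

/-- power weights -/
noncomputable def pw (α : ℝ) (n : ℕ) : ℝ≥0∞ := ENNReal.ofReal (((n : ℝ) + 1) ^ (-α))

theorem pw_anti {α : ℝ} (h0 : 0 < α) : Antitone (pw α) := by
  intro m n h
  unfold pw
  refine ENNReal.ofReal_le_ofReal ?_
  refine Real.rpow_le_rpow_of_nonpos (by positivity) ?_ (by linarith)
  have : (m : ℝ) ≤ n := by exact_mod_cast h
  linarith

theorem pw_weight {α : ℝ} (h0 : 0 < α) (h1 : α < 1) : Weight (pw α) where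
  anti := pw_anti h0
  fin n := ENNReal.ofReal_ne_top
  dbl n := by
    unfold pw
    have h2 : (2 : ℝ≥0∞) = ENNReal.ofReal 2 := by simp
    rw [h2, ← ENNReal.ofReal_mul (by norm_num)]
    refine ENNReal.ofReal_le_ofReal ?_
    have h3 : (((2 * n + 1 : ℕ) : ℝ) + 1) = 2 * ((n : ℝ) + 1) := by push_cast; ring
    rw [h3, Real.mul_rpow (by norm_num) (by positivity)]
    have h4 : (1 : ℝ) ≤ 2 * 2 ^ (-α) := by
      have h5 : (2 : ℝ) * 2 ^ (-α) = 2 ^ (1 - α) := by
        rw [Real.rpow_sub (by norm_num), Real.rpow_neg (by norm_num)]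
        simp [div_eq_mul_inv]
      rw [h5]
      exact Real.one_le_rpow (by norm_num) (by linarith)
    have h6 : (0 : ℝ) ≤ ((n : ℝ) + 1) ^ (-α) := by positivity
    nlinarith
  grow := by
    have h2 : ∀ n : ℕ, ((n : ℝ≥0∞) + 1) * pw α (2 * n + 1) =
        ENNReal.ofReal (2 ^ (-α) * ((n : ℝ) + 1) ^ (1 - α)) := by
      intro n
      unfold pw
      have h3 : (((2 * n + 1 : ℕ) : ℝ) + 1) = 2 * ((n : ℝ) + 1) := by push_cast; ring
      have h4 : ((n : ℝ≥0∞) + 1) = ENNReal.ofReal ((n : ℝ) + 1) := by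
        rw [ENNReal.ofReal_add (by positivity) (by norm_num)]
        simp
      rw [h4, ← ENNReal.ofReal_mul (by positivity), h3,
        Real.mul_rpow (by norm_num) (by positivity)]
      congr 1
      rw [sub_eq_add_neg, Real.rpow_add (by positivity), Real.rpow_one]
      ring
    simp only [h2]
    have h5 : Tendsto (fun n : ℕ => (2 : ℝ) ^ (-α) * ((n : ℝ) + 1) ^ (1 - α)) atTop atTop := by
      refine Tendsto.const_mul_atTop (by positivity) ?_
      have h6 : Tendsto (fun n : ℕ => (n : ℝ) + 1) atTop atTop :=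
        tendsto_atTop_add_const_right _ _ tendsto_natCast_atTop_atTop
      exact (tendsto_rpow_atTop (by linarith)).comp h6
    exact ENNReal.tendsto_ofReal_nhds_top.2 h5

/-- block sizes -/
noncomputable def sz (α : ℝ) (m : ℕ) : ℕ := ⌊(2 : ℝ) ^ (α * m) / ((m : ℝ) + 1) ^ 2⌋₊

theorem sz_lt {α : ℝ} (h0 : 0 < α) (h1 : α < 1) {m : ℕ} (hm : 1 ≤ m) : sz α m < 2 ^ m := by
  unfold sz
  rw [Nat.floor_lt (by positivity)]
  have h2 : (2 : ℝ) ^ (α * m) ≤ 2 ^ m := by
    rw [← Real.rpow_natCast]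
    refine Real.rpow_le_rpow_of_exponent_le (by norm_num) ?_
    have : (0 : ℝ) ≤ m := by positivity
    nlinarith
  have h3 : (1 : ℝ) ≤ m := by exact_mod_cast hm
  rw [div_lt_iff₀ (by positivity)]
  push_cast
  have h4 : (0 : ℝ) < 2 ^ m := by positivity
  have h5 : (1 : ℝ) < ((m : ℝ) + 1) ^ 2 := by nlinarith
  calc (2 : ℝ) ^ (α * m) ≤ 2 ^ m := h2
    _ < 2 ^ m * ((m : ℝ) + 1) ^ 2 := by
      exact lt_mul_of_one_lt_right h4 h5

def blk (α : ℝ) (m : ℕ) : Set ℕ := {x | 2 ^ m ≤ x ∧ x < 2 ^ m + sz α m}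

def bad (α : ℝ) : Set ℕ := ⋃ m, blk α (m + 1)

theorem bad_compl_infinite {α : ℝ} (h0 : 0 < α) (h1 : α < 1) : ((bad α)ᶜ : Set ℕ).Infinite := by
  rw [Set.infinite_iff_exists_gt]
  intro a
  refine ⟨2 ^ (a + 1) + sz α (a + 1), ?_, ?_⟩
  · intro h
    obtain ⟨m, hm1, hm2⟩ := mem_iUnion.1 h
    have h2 := sz_lt h0 h1 (m := m + 1) (by omega)
    have h3 := sz_lt h0 h1 (m := a + 1) (by omega)
    rcases lt_trichotomy m a with hlt | heq | hgt
    · have h4 : 2 ^ (m + 1 + 1) ≤ 2 ^ (a + 1) := Nat.pow_le_pow_right (by norm_num) (by omega)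
      rw [pow_succ] at h4
      omega
    · subst heq
      omega
    · have h4 : 2 ^ (a + 1 + 1) ≤ 2 ^ (m + 1) := Nat.pow_le_pow_right (by norm_num) (by omega)
      rw [pow_succ] at h4
      omega
  · have : a + 1 < 2 ^ (a + 1) := Nat.lt_two_pow_self
    omega

theorem tsum_blk (f : ℕ → ℝ≥0∞) (α : ℝ) (m : ℕ) :
    ∑' x : blk α m, f x = ∑ i ∈ Finset.range (sz α m), f (2 ^ m + i) := by
  have h1 : blk α m = ((Finset.Ico (2 ^ m) (2 ^ m + sz α m) : Finset ℕ) : Set ℕ) := by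
    ext x
    simp [blk]
  rw [h1, Finset.tsum_subtype' (Finset.Ico (2 ^ m) (2 ^ m + sz α m)) f, Finset.sum_Ico_eq_sum_range]
  simp

theorem bad_fin {α : ℝ} (h0 : 0 < α) (h1 : α < 1) : ∑' x : bad α, pw α x < ⊤ := by
  have h2 : ∑' x : bad α, pw α x ≤ ∑' m : ℕ, ∑' x : blk α (m + 1), pw α x :=
    ENNReal.tsum_iUnion_le_tsum _ _
  refine lt_of_le_of_lt h2 ?_
  have h3 : ∀ m : ℕ, ∑' x : blk α m, pw α x ≤ ENNReal.ofReal (1 / ((m : ℝ) + 1) ^ 2) := by
    intro m
    rw [tsum_blk]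
    calc ∑ i ∈ Finset.range (sz α m), pw α (2 ^ m + i)
        ≤ ∑ i ∈ Finset.range (sz α m), ENNReal.ofReal ((2 : ℝ) ^ (-(α * m))) := by
          refine Finset.sum_le_sum fun i _ => ?_
          unfold pw
          refine ENNReal.ofReal_le_ofReal ?_
          have e1 : (2 : ℝ) ^ (-(α * m)) = ((2 : ℝ) ^ m) ^ (-α) := by
            rw [← Real.rpow_natCast, ← Real.rpow_mul (by norm_num)]
            ring_nf
          rw [e1]
          refine Real.rpow_le_rpow_of_nonpos (by positivity) ?_ (by linarith)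
          push_cast
          have : (0 : ℝ) ≤ i := by positivity
          linarith
      _ = (sz α m : ℝ≥0∞) * ENNReal.ofReal ((2 : ℝ) ^ (-(α * m))) := by
          rw [Finset.sum_const, Finset.card_range, nsmul_eq_mul]
      _ ≤ ENNReal.ofReal ((2 : ℝ) ^ (α * m) / ((m : ℝ) + 1) ^ 2) *
            ENNReal.ofReal ((2 : ℝ) ^ (-(α * m))) := by
          gcongr
          rw [← ENNReal.ofReal_natCast]
          refine ENNReal.ofReal_le_ofReal ?_
          exact Nat.floor_le (by positivity)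
      _ = ENNReal.ofReal (1 / ((m : ℝ) + 1) ^ 2) := by
          rw [← ENNReal.ofReal_mul (by positivity)]
          congr 1
          rw [Real.rpow_neg (by norm_num)]
          have : (2 : ℝ) ^ (α * m) ≠ 0 := by positivity
          field_simp
  have h4 : ∑' m : ℕ, ∑' x : blk α (m + 1), pw α x ≤
      ∑' m : ℕ, ENNReal.ofReal (1 / (((m + 1 : ℕ) : ℝ) + 1) ^ 2) :=
    ENNReal.tsum_le_tsum fun m => h3 (m + 1)
  refine lt_of_le_of_lt h4 ?_
  rw [← ENNReal.ofReal_tsum_of_nonneg]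
  · exact ENNReal.ofReal_lt_top
  · intro m; positivity
  · have h5 : Summable (fun n : ℕ => 1 / (n : ℝ) ^ 2) :=
      Real.summable_one_div_nat_pow.2 (by norm_num)
    have h6 := (summable_nat_add_iff 2).2 h5
    refine h6.congr fun m => ?_
    push_cast
    ring_nf

theorem bad_inf {α β : ℝ} (hb : 0 < β) (hba : β < α) (h1 : α < 1) :
    ∑' x : bad α, pw β x = ⊤ := by
  have h0 : 0 < α := hb.trans hba
  have h2 : ∀ m : ℕ, ENNReal.ofReal (((2 : ℝ) ^ (α * m) / ((m : ℝ) + 1) ^ 2 - 1) *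
      (2 : ℝ) ^ (-(β * (m + 1)))) ≤ ∑' x : blk α m, pw β x := by
    intro m
    rw [tsum_blk]
    have h3 : ∀ i ∈ Finset.range (sz α m),
        ENNReal.ofReal ((2 : ℝ) ^ (-(β * (m + 1)))) ≤ pw β (2 ^ m + i) := by
      intro i hi
      unfold pw
      refine ENNReal.ofReal_le_ofReal ?_
      have e1 : (2 : ℝ) ^ (-(β * (m + 1))) = ((2 : ℝ) ^ (m + 1)) ^ (-β) := by
        rw [← Real.rpow_natCast, ← Real.rpow_mul (by norm_num)]
        push_cast
        ring_nf
      rw [e1]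
      refine Real.rpow_le_rpow_of_nonpos (by positivity) ?_ (by linarith)
      have hi' : i + 1 ≤ 2 ^ m := by
        have h4 := Finset.mem_range.1 hi
        rcases Nat.eq_zero_or_pos m with rfl | hm
        · have : sz α 0 ≤ 1 := by
            unfold sz
            simp
          simp; omega
        · have := sz_lt h0 h1 (m := m) hm
          omega
      have hi'' : (i : ℝ) + 1 ≤ 2 ^ m := by exact_mod_cast hi'
      push_cast
      rw [pow_succ]
      linarith
    calc ENNReal.ofReal (((2 : ℝ) ^ (α * m) / ((m : ℝ) + 1) ^ 2 - 1) *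
      (2 : ℝ) ^ (-(β * (m + 1))))
        ≤ ENNReal.ofReal ((sz α m : ℝ) * (2 : ℝ) ^ (-(β * (m + 1)))) := by
          refine ENNReal.ofReal_le_ofReal ?_
          refine mul_le_mul_of_nonneg_right ?_ (by positivity)
          exact (Nat.sub_one_lt_floor _).le
      _ = (sz α m : ℝ≥0∞) * ENNReal.ofReal ((2 : ℝ) ^ (-(β * (m + 1)))) := by
          rw [ENNReal.ofReal_mul (by positivity), ENNReal.ofReal_natCast]
      _ = ∑ i ∈ Finset.range (sz α m), ENNReal.ofReal ((2 : ℝ) ^ (-(β * (m + 1)))) := by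
          rw [Finset.sum_const, Finset.card_range, nsmul_eq_mul]
      _ ≤ _ := Finset.sum_le_sum h3
  have h5 : Tendsto (fun m : ℕ => ((2 : ℝ) ^ (α * m) / ((m : ℝ) + 1) ^ 2 - 1) *
      (2 : ℝ) ^ (-(β * (m + 1)))) atTop atTop := by
    have h6 : ∀ m : ℕ, ((2 : ℝ) ^ (α * m) / ((m : ℝ) + 1) ^ 2 - 1) * (2 : ℝ) ^ (-(β * (m + 1))) =
        (2 : ℝ) ^ (-α) * ((((2 : ℝ) ^ (α - β)) ^ (m + 1)) / (((m + 1 : ℕ)) : ℝ) ^ 2) -
          (2 : ℝ) ^ (-(β * (m + 1))) := by
      intro m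
      have e1 : (2 : ℝ) ^ (α * m) = (2 : ℝ) ^ (-α) * (2 : ℝ) ^ (α * (m + 1)) := by
        rw [← Real.rpow_add (by norm_num)]
        ring_nf
      have e2 : ((2 : ℝ) ^ (α - β)) ^ (m + 1) = (2 : ℝ) ^ (α * (m + 1)) *
          (2 : ℝ) ^ (-(β * (m + 1))) := by
        rw [← Real.rpow_add (by norm_num), ← Real.rpow_natCast, ← Real.rpow_mul (by norm_num)]
        push_cast
        ring_nf
      rw [e1, e2]
      push_cast
      ring
    simp only [h6]
    refine Filter.tendsto_atTop_add_right_of_le _ (-1) ?_ ?_ |>.congr (fun m => (sub_eq_add_neg _ _).symm)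
    · refine Tendsto.const_mul_atTop (by positivity) ?_
      have hr : 1 < (2 : ℝ) ^ (α - β) := Real.one_lt_rpow (by norm_num) (by linarith)
      have h7 := tendsto_pow_const_div_const_pow_of_one_lt 2 hr
      have h8 : Tendsto (fun n : ℕ => ((2 : ℝ) ^ (α - β)) ^ n / (n : ℝ) ^ 2) atTop atTop := by
        have h9 : Tendsto (fun n : ℕ => ((n : ℝ) ^ 2 / ((2 : ℝ) ^ (α - β)) ^ n)) atTop
            (𝓝[>] 0) := by
          refine tendsto_nhdsWithin_iff.2 ⟨h7, ?_⟩
          filter_upwards [eventually_gt_atTop 0] with n hn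
          have : (0 : ℝ) < n := by exact_mod_cast hn
          have h12 : (0 : ℝ) < (n : ℝ) ^ 2 / ((2 : ℝ) ^ (α - β)) ^ n := by positivity
          exact h12
        have h10 := tendsto_inv_nhdsGT_zero.comp h9
        refine h10.congr fun n => ?_
        simp [inv_div]
      exact h8.comp (tendsto_add_atTop_nat 1)
    · intro m
      have : (2 : ℝ) ^ (-(β * (m + 1))) ≤ 1 := by
        refine Real.rpow_le_one_of_one_le_of_nonpos (by norm_num) ?_
        have : 0 < β * (m + 1) := by positivity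
        linarith
      linarith
  have h11 := ENNReal.tendsto_ofReal_nhds_top.2 h5
  rw [eq_top_iff]
  refine le_of_tendsto' (h11.comp (tendsto_add_atTop_nat 1)) fun m => ?_
  refine (h2 (m + 1)).trans ?_
  exact ENNReal.tsum_mono_subtype _ (subset_iUnion (fun m => blk α (m + 1)) m)

open Classical in
/-- the strictly increasing map whose range is the complement of the bad set -/
noncomputable def wit (α : ℝ) : E :=
  if h : 0 < α ∧ α < 1 then
    ⟨Nat.nth (· ∈ (bad α)ᶜ), fun hab =>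
      Nat.nth_strictMono (bad_compl_infinite h.1 h.2) hab⟩
  else 1

theorem range_wit {α : ℝ} (h0 : 0 < α) (h1 : α < 1) :
    range (wit α : ℕ → ℕ) = (bad α)ᶜ := by
  unfold wit
  rw [dif_pos ⟨h0, h1⟩]
  exact Nat.range_nth_of_infinite (bad_compl_infinite h0 h1)

theorem sig_wit {α : ℝ} (h0 : 0 < α) (h1 : α < 1) (f : ℕ → ℝ≥0∞) :
    sig f (wit α) = ∑' x : bad α, f x := by
  rw [sig_eq (mono _), range_wit h0 h1, compl_compl]

theorem no_upper_bound (T : TopologicalSpace E) [SecondCountableTopology E] :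
    ∃ α : ℝ, 0 < α ∧ α < 1 ∧ ¬ (T ≤ top (pw α)) := by
  by_contra hcon
  push Not at hcon
  have hO : ∀ α : ℝ, 0 < α → α < 1 → IsOpen {X : E | sig (pw α) X < ⊤} := by
    intro α h0 h1
    refine hcon α h0 h1 _ ?_
    refine isOpen_induced_iff.2 ⟨{p | p.2 < ⊤}, ?_, rfl⟩
    exact isOpen_lt continuous_snd continuous_const
  obtain ⟨B, hBc, -, hB⟩ := TopologicalSpace.exists_countable_basis E
  have hex : ∀ α : Ioo (0 : ℝ) 1, ∃ U ∈ B, wit α ∈ U ∧ U ⊆ {X : E | sig (pw α) X < ⊤} := by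
    intro α
    have hmem : wit (α : ℝ) ∈ {X : E | sig (pw α) X < ⊤} := by
      have := bad_fin α.2.1 α.2.2
      rw [← sig_wit α.2.1 α.2.2] at this
      exact this
    exact hB.exists_subset_of_mem_open hmem (hO α α.2.1 α.2.2)
  choose U hU1 hU2 hU3 using hex
  have hinj : Function.Injective (fun α : Ioo (0 : ℝ) 1 => (⟨U α, hU1 α⟩ : B)) := by
    have key : ∀ α β : Ioo (0 : ℝ) 1, (β : ℝ) < α → U α ≠ U β := by
      intro α β hlt heq
      have h1 : wit (α : ℝ) ∈ {X : E | sig (pw β) X < ⊤} := hU3 β (heq ▸ hU2 α)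
      have h2 : sig (pw β) (wit (α : ℝ)) < ⊤ := h1
      rw [sig_wit α.2.1 α.2.2, bad_inf β.2.1 hlt α.2.2] at h2
      exact lt_irrefl _ h2
    intro α β h
    have h' : U α = U β := congrArg Subtype.val h
    rcases lt_trichotomy (α : ℝ) β with hlt | heq | hgt
    · exact absurd h'.symm (key β α hlt)
    · exact Subtype.ext heq
    · exact absurd h' (key α β hgt)
  have : Countable B := hBc.to_subtype
  have h3 : Countable (Ioo (0 : ℝ) 1) := hinj.countable
  have h4 : (Ioo (0 : ℝ) 1).Countable := h3.to_set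
  rw [Cardinal.Real.Ioo_countable_iff] at h4
  norm_num at h4

end Q17.EndN
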