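import Pool.Agent.Q17.EndN.Weighted

namespace Q17.EndN

open Set Topology Filter
open scoped ENNReal

/-- admissible weights -/
structure Weight (f : ℕ → ℝ≥0∞) : Prop where
  anti : Antitone f
  fin : ∀ n, f n ≠ ⊤
  dbl : ∀ n, f n ≤ 2 * f (2 * n + 1)
  grow : Tendsto (fun n : ℕ => ((n : ℝ≥0∞) + 1) * f (2 * n + 1)) atTop (𝓝 ⊤)

theorem card_miss {g : ℕ → ℕ} (hg : StrictMono g) {n m : ℕ} (h : m ≤ g n) :
    ∃ s : Finset ℕ, s ⊆ Finset.range m ∧ (∀ i ∈ s, i ∉ range g) ∧ m ≤ s.card + n := by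
  classical
  refine ⟨Finset.range m \ (Finset.range n).image g, Finset.sdiff_subset, ?_, ?_⟩
  · intro i hi
    rw [Finset.mem_sdiff, Finset.mem_range, Finset.mem_image] at hi
    rintro ⟨j, rfl⟩
    refine hi.2 ⟨j, ?_, rfl⟩
    rw [Finset.mem_range]
    exact hg.lt_iff_lt.1 (lt_of_lt_of_le hi.1 h)
  · have h1 := Finset.card_le_card_sdiff_add_card (t := (Finset.range n).image g)
      (s := Finset.range m)
    have h2 : ((Finset.range n).image g).card ≤ n := by
      simpa using Finset.card_image_le (s := Finset.range n) (f := g)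
    rw [Finset.card_range] at h1
    omega

theorem sig_lower {f : ℕ → ℝ≥0∞} (hf : Antitone f) {g : ℕ → ℕ} (hg : StrictMono g) {n : ℕ}
    (h : 2 * n + 2 ≤ g n) : ((n : ℝ≥0∞) + 1) * f (2 * n + 1) ≤ sig f g := by
  classical
  obtain ⟨s, hs, hs', hc⟩ := card_miss hg h
  have h1 : ∑ i ∈ s, (if Miss g i then f i else 0) ≤ sig f g := ENNReal.sum_le_tsum s
  refine le_trans ?_ h1
  have h2 : ∑ i ∈ s, f (2 * n + 1) ≤ ∑ i ∈ s, (if Miss g i then f i else 0) := by
    refine Finset.sum_le_sum fun i hi => ?_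
    rw [if_pos ((miss_iff hg i).2 (hs' i hi))]
    have := Finset.mem_range.1 (hs hi)
    exact hf (by omega)
  refine le_trans ?_ h2
  rw [Finset.sum_const, nsmul_eq_mul]
  gcongr
  have : n + 1 ≤ s.card := by omega
  exact_mod_cast this

theorem eventually_le {f : ℕ → ℝ≥0∞} (hf : Weight f) {g : ℕ → ℕ} (hg : StrictMono g)
    (hs : sig f g < ⊤) : ∃ N, ∀ n ≥ N, g n ≤ 2 * n + 1 := by
  have h1 : ∀ᶠ n : ℕ in atTop, sig f g < ((n : ℝ≥0∞) + 1) * f (2 * n + 1) :=
    hf.grow.eventually (lt_mem_nhds hs)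
  obtain ⟨N, hN⟩ := eventually_atTop.1 h1
  refine ⟨N, fun n hn => ?_⟩
  by_contra hcon
  have h2 : 2 * n + 2 ≤ g n := by omega
  exact absurd (sig_lower hf.anti hg h2) (not_le.2 (hN n hn))

theorem sig_right_lt {f : ℕ → ℝ≥0∞} (hf : Weight f) {g h : ℕ → ℕ} (hg : StrictMono g)
    (hs : sig f g < ⊤) (hr : rho f g h < ⊤) : sig f h < ⊤ := by
  classical
  obtain ⟨N, hN⟩ := eventually_le hf hg hs
  have key : sig f h ≤ (∑' n, if n < N then f n else 0) + 2 * rho f g h := by
    unfold sig rho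
    rw [← ENNReal.tsum_mul_left, ← ENNReal.tsum_add]
    refine ENNReal.tsum_le_tsum fun n => ?_
    by_cases hm : Miss h n
    · simp only [hm, if_true]
      by_cases hn : n < N
      · simp [hn]
      · have h1 : f (2 * n + 1) ≤ f (g n) := hf.anti (hN n (by omega))
        calc f n ≤ 2 * f (2 * n + 1) := hf.dbl n
          _ ≤ 2 * f (g n) := by gcongr
          _ ≤ _ := le_add_self
    · simp [hm]
  refine lt_of_le_of_lt key (ENNReal.add_lt_top.2 ⟨?_, ENNReal.mul_lt_top (by simp) hr⟩)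
  have : (∑' n, if n < N then f n else 0) = ∑ n ∈ Finset.range N, f n := by
    rw [tsum_eq_sum (s := Finset.range N)]
    · refine Finset.sum_congr rfl fun n hn => ?_
      rw [if_pos (Finset.mem_range.1 hn)]
    · intro n hn
      rw [if_neg]
      simpa using hn
  rw [this]
  exact ENNReal.sum_lt_top.2 fun n _ => (hf.fin n).lt_top

/-- the map inducing the topology attached to a weight -/
noncomputable def Phi (f : ℕ → ℝ≥0∞) (X : E) : (ℕ → ℕ) × ℝ≥0∞ := (X, sig f X)

/-- the topology attached to a weight -/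
@[instance_reducible] noncomputable def top (f : ℕ → ℝ≥0∞) : TopologicalSpace E :=
  TopologicalSpace.induced (Phi f) inferInstance

theorem mono (X : E) : StrictMono (X : ℕ → ℕ) := fun _ _ h => X.map_rel h

theorem isGdelta_graph {α : Type*} [TopologicalSpace α] {s : α → ℝ≥0∞}
    (hs : LowerSemicontinuous s) (hα : ∀ C : Set (α × ℝ≥0∞), IsClosed C → IsGδ C) :
    IsGδ {p : α × ℝ≥0∞ | s p.1 = p.2} := by
  have h1 : IsClosed {p : α × ℝ≥0∞ | s p.1 ≤ p.2} := hs.isClosed_epigraph
  have h2 : {p : α × ℝ≥0∞ | s p.1 = p.2} = {p : α × ℝ≥0∞ | s p.1 ≤ p.2} ∩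
      ⋂ q : ℚ, ({p : α × ℝ≥0∞ | p.2 ≤ ENNReal.ofReal q} ∪
        {p : α × ℝ≥0∞ | ENNReal.ofReal q < s p.1}) := by
    ext p
    simp only [mem_ofPred_eq, mem_inter_iff, mem_iInter, mem_union]
    constructor
    · intro h
      refine ⟨h.le, fun q => ?_⟩
      rw [h]
      exact le_or_gt _ _
    · rintro ⟨h3, h4⟩
      refine le_antisymm h3 ?_
      by_contra hcon
      obtain ⟨q, hq0, hq1, hq2⟩ := ENNReal.lt_iff_exists_rat_btwn.1 (not_le.1 hcon)
      have h5 : ENNReal.ofReal (q : ℝ) = ((q : ℝ).toNNReal : ℝ≥0∞) := rfl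
      rcases h4 q with h6 | h6
      · rw [h5] at h6
        exact absurd hq2 (not_lt.2 h6)
      · rw [h5] at h6
        exact absurd hq1 (not_lt.2 h6.le)
  rw [h2]
  refine (hα _ h1).inter (IsGδ.iInter fun q => ?_)
  refine IsGδ.union (hα _ ?_) (IsOpen.isGδ ?_)
  · exact isClosed_le continuous_snd continuous_const
  · have h3 : IsOpen {x : α | ENNReal.ofReal q < s x} := hs.isOpen_preimage _
    exact h3.preimage continuous_fst

theorem polish_top (f : ℕ → ℝ≥0∞) : @PolishSpace E (top f) := by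
  classical
  have hcl : ∀ C : Set ((ℕ → ℕ) × ℝ≥0∞), IsClosed C → IsGδ C := by
    intro C hC
    let _ := TopologicalSpace.upgradeIsCompletelyMetrizable ((ℕ → ℕ) × ℝ≥0∞)
    exact hC.isGδ
  have hG : IsGδ (range (Phi f)) := by
    have : range (Phi f) = {p : (ℕ → ℕ) × ℝ≥0∞ | StrictMono p.1} ∩
        {p : (ℕ → ℕ) × ℝ≥0∞ | sig f p.1 = p.2} := by
      ext p
      constructor
      · rintro ⟨X, rfl⟩
        exact ⟨mono X, rfl⟩
      · rintro ⟨h1, h2⟩
        refine ⟨⟨p.1, fun {a b} h => h1 h⟩, ?_⟩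
        exact Prod.ext rfl h2
    rw [this]
    refine IsGδ.inter (hcl _ ?_) (isGdelta_graph (lsc_sig f) hcl)
    have : {p : (ℕ → ℕ) × ℝ≥0∞ | StrictMono p.1} =
        ⋂ a : ℕ, {p : (ℕ → ℕ) × ℝ≥0∞ | p.1 a < p.1 (a + 1)} := by
      ext p
      simp only [mem_ofPred_eq, mem_iInter]
      exact ⟨fun h a => h (Nat.lt_succ_self a), strictMono_nat_of_lt_succ⟩
    rw [this]
    refine isClosed_iInter fun a => ?_
    have hd : IsClosed {u : ℕ × ℕ | u.1 < u.2} := isClosed_discrete _
    have e1 : Continuous (fun p : (ℕ → ℕ) × ℝ≥0∞ => p.1 a) :=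
      (continuous_apply a).comp continuous_fst
    have e2 : Continuous (fun p : (ℕ → ℕ) × ℝ≥0∞ => p.1 (a + 1)) :=
      (continuous_apply (a + 1)).comp continuous_fst
    exact hd.preimage (e1.prodMk e2)
  have hP : PolishSpace (range (Phi f)) := polish_of_isGdelta hG
  have hinj : Function.Injective (Phi f) := by
    intro X Y h
    have : (X : ℕ → ℕ) = Y := congrArg Prod.fst h
    exact DFunLike.coe_injective this
  have := (Equiv.ofInjective (Phi f) hinj).polishSpace_induced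
  rw [instTopologicalSpaceSubtype, induced_compose] at this
  exact this

theorem lsc_comp {f : ℕ → ℝ≥0∞} :
    LowerSemicontinuous (fun p : (ℕ → ℕ) × (ℕ → ℕ) => sig f (p.1 ∘ p.2)) := by
  have hc : Continuous (fun p : (ℕ → ℕ) × (ℕ → ℕ) => p.1 ∘ p.2) := by
    refine continuous_pi fun n => ?_
    have h1 : Continuous (fun q : (ℕ → ℕ) × ℕ => q.1 q.2) := by
      rw [continuous_prod_of_discrete_right]
      exact fun m => continuous_apply m
    exact h1.comp (continuous_fst.prodMk ((continuous_apply n).comp continuous_snd))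
  exact (lsc_sig f).comp hc

theorem continuous_mul_top {f : ℕ → ℝ≥0∞} (hf : Weight f) :
    @ContinuousMul E (top f) _ := by
  let _ : TopologicalSpace E := top f
  have hPhi : Continuous (Phi f) := continuous_induced_dom
  have hcoe : Continuous (fun X : E => (X : ℕ → ℕ)) := continuous_fst.comp hPhi
  have hsig : Continuous (fun X : E => sig f X) := continuous_snd.comp hPhi
  have hpair : Continuous (fun p : E × E => ((p.1 : ℕ → ℕ), (p.2 : ℕ → ℕ))) :=
    (hcoe.comp continuous_fst).prodMk (hcoe.comp continuous_snd)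
  refine ⟨?_⟩
  refine continuous_induced_rng.2 ?_
  refine Continuous.prodMk ?_ ?_
  · have hc : Continuous (fun p : (ℕ → ℕ) × (ℕ → ℕ) => p.1 ∘ p.2) := by
      refine continuous_pi fun n => ?_
      have h1 : Continuous (fun q : (ℕ → ℕ) × ℕ => q.1 q.2) := by
        rw [continuous_prod_of_discrete_right]
        exact fun m => continuous_apply m
      exact h1.comp (continuous_fst.prodMk ((continuous_apply n).comp continuous_snd))
    exact hc.comp hpair
  · rw [continuous_iff_continuousAt]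
    intro p₀
    have hlsc : LowerSemicontinuous (fun p : E × E => sig f ((p.1 : ℕ → ℕ) ∘ p.2)) :=
      lsc_comp.comp hpair
    change Tendsto (fun p : E × E => sig f ((p.1 : ℕ → ℕ) ∘ p.2)) (𝓝 p₀)
      (𝓝 (sig f ((p₀.1 : ℕ → ℕ) ∘ p₀.2)))
    rw [tendsto_order]
    refine ⟨fun a ha => hlsc p₀ a ha, fun b hb => ?_⟩
    have hfin : sig f ((p₀.1 : ℕ → ℕ) ∘ p₀.2) < ⊤ := lt_of_lt_of_le hb le_top
    have e0 := sig_comp (f := f) (mono p₀.1) (mono p₀.2)
    rw [e0] at hfin
    have hs1 : sig f p₀.1 < ⊤ := (ENNReal.add_lt_top.1 hfin).1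
    have hr1 : rho f p₀.1 p₀.2 < ⊤ := (ENNReal.add_lt_top.1 hfin).2
    have hs2 : sig f p₀.2 < ⊤ := sig_right_lt hf (mono p₀.1) hs1 hr1
    have key : ∀ p : E × E, sig f ((p.1 : ℕ → ℕ) ∘ p.2) + kap f p.1 p.2 =
        sig f p.1 + sig f p.2 := by
      intro p
      rw [sig_comp (mono p.1) (mono p.2), add_assoc, rho_add_kap hf.anti (mono p.1)]
    have hk : kap f p₀.1 p₀.2 ≠ ⊤ := by
      have h1 : kap f p₀.1 p₀.2 ≤ sig f p₀.2 := by
        rw [← rho_add_kap hf.anti (mono p₀.1)]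
        exact le_add_self
      exact (lt_of_le_of_lt h1 hs2).ne
    have hlt : sig f p₀.1 + sig f p₀.2 < b + kap f p₀.1 p₀.2 := by
      rw [← key p₀]
      exact ENNReal.add_lt_add_right hk hb
    obtain ⟨c, hc1, hc2⟩ := exists_between hlt
    have hA : Continuous (fun p : E × E => sig f p.1 + sig f p.2) :=
      (hsig.comp continuous_fst).add (hsig.comp continuous_snd)
    have ev1 : ∀ᶠ p in 𝓝 p₀, sig f (p : E × E).1 + sig f p.2 < c :=
      hA.continuousAt.eventually (gt_mem_nhds hc1)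
    have hB : LowerSemicontinuous (fun p : E × E => b + kap f p.1 p.2) := by
      have h1 : LowerSemicontinuous (fun p : E × E => kap f p.1 p.2) :=
        (lsc_kap f).comp hpair
      exact (continuous_const.lowerSemicontinuous).add h1
    have ev2 : ∀ᶠ p in 𝓝 p₀, c < b + kap f (p : E × E).1 p.2 := hB p₀ c hc2
    filter_upwards [ev1, ev2] with p h1 h2
    have h3 : sig f ((p.1 : ℕ → ℕ) ∘ p.2) + kap f p.1 p.2 < b + kap f p.1 p.2 := by
      rw [key p]
      exact h1.trans h2
    exact lt_of_add_lt_add_right h3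

end Q17.EndN
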