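import Mathlib

/-!
Weighted refinements of the pointwise topology on the monoid of strictly increasing
self-maps of the natural numbers.
-/

namespace Q17.EndN

open Set Topology Filter
open scoped ENNReal

/-- The endomorphism monoid of the natural numbers with the strict order. -/
abbrev E : Type := ((· < ·) : ℕ → ℕ → Prop) →r ((· < ·) : ℕ → ℕ → Prop)

theorem polish_of_isGdelta {α : Type*} [TopologicalSpace α] [PolishSpace α] {s : Set α}
    (hs : IsGδ s) : PolishSpace s := by
  obtain ⟨O, hO, rfl⟩ := isGδ_iff_eq_iInter_nat.1 hs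
  have : ∀ n, PolishSpace (O n) := fun n => (hO n).polishSpace
  let F : (⋂ n, O n : Set α) → (∀ n, O n) := fun x n => ⟨x.1, mem_iInter.1 x.2 n⟩
  have hFc : Continuous F := by
    refine continuous_pi fun n => ?_
    exact Continuous.subtype_mk continuous_subtype_val _
  have hemb : IsEmbedding F := by
    have hg : Continuous (fun y : (∀ n, O n) => (y 0 : α)) :=
      continuous_subtype_val.comp (continuous_apply 0)
    refine IsEmbedding.of_comp hFc hg ?_
    exact IsEmbedding.subtypeVal
  have hcl : IsClosed (range F) := by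
    have : range F = ⋂ n, {y : (∀ n, O n) | (y n : α) = y 0} := by
      ext y
      simp only [mem_range, mem_iInter, mem_ofPred_eq]
      constructor
      · rintro ⟨x, rfl⟩ n
        rfl
      · intro h
        refine ⟨⟨y 0, mem_iInter.2 fun n => ?_⟩, ?_⟩
        · rw [← h n]; exact (y n).2
        · funext n
          exact Subtype.ext (h n).symm
    rw [this]
    refine isClosed_iInter fun n => isClosed_eq ?_ ?_
    · exact continuous_subtype_val.comp (continuous_apply n)
    · exact continuous_subtype_val.comp (continuous_apply 0)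
  exact (IsClosedEmbedding.mk hemb hcl).polishSpace

/-- `i` is not among the first values of `g`; for a strictly increasing `g` this says that `i` is
not a value of `g`. -/
def Miss (g : ℕ → ℕ) (i : ℕ) : Prop := ∀ j ≤ i, g j ≠ i

theorem miss_iff {g : ℕ → ℕ} (hg : StrictMono g) (i : ℕ) : Miss g i ↔ i ∉ range g := by
  constructor
  · rintro h ⟨j, rfl⟩
    exact h j (hg.id_le j) rfl
  · rintro h j - rfl
    exact h ⟨j, rfl⟩

open Classical in
/-- total weight of the missed numbers -/
noncomputable def sig (f : ℕ → ℝ≥0∞) (g : ℕ → ℕ) : ℝ≥0∞ :=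
  ∑' n, if Miss g n then f n else 0

open Classical in
noncomputable def rho (f : ℕ → ℝ≥0∞) (g h : ℕ → ℕ) : ℝ≥0∞ :=
  ∑' n, if Miss h n then f (g n) else 0

open Classical in
noncomputable def kap (f : ℕ → ℝ≥0∞) (g h : ℕ → ℕ) : ℝ≥0∞ :=
  ∑' n, if Miss h n then f n - f (g n) else 0

theorem continuous_of_local {α : Type*} [TopologicalSpace α] {F : (ℕ → ℕ) → α} (n : ℕ)
    (h : ∀ g g' : ℕ → ℕ, (∀ j ≤ n, g j = g' j) → F g = F g') : Continuous F := by
  let R : (ℕ → ℕ) → (Fin (n + 1) → ℕ) := fun g j => g j
  let G : (Fin (n + 1) → ℕ) → α := fun u => F (fun j => if hj : j < n + 1 then u ⟨j, hj⟩ else 0)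
  have hR : Continuous R := continuous_pi fun j => continuous_apply _
  have hG : Continuous G := continuous_of_discreteTopology
  have : F = G ∘ R := by
    funext g
    refine h _ _ ?_
    intro j hj
    have : j < n + 1 := by omega
    simp [R, this]
  rw [this]
  exact hG.comp hR

theorem continuous_of_local₂ {α : Type*} [TopologicalSpace α] {F : (ℕ → ℕ) × (ℕ → ℕ) → α} (n : ℕ)
    (h : ∀ g g' h h' : ℕ → ℕ, (∀ j ≤ n, g j = g' j) → (∀ j ≤ n, h j = h' j) →
      F (g, h) = F (g', h')) : Continuous F := by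
  let R : (ℕ → ℕ) × (ℕ → ℕ) → (Fin (n + 1) → ℕ) × (Fin (n + 1) → ℕ) :=
    fun g => (fun j => g.1 j, fun j => g.2 j)
  let G : (Fin (n + 1) → ℕ) × (Fin (n + 1) → ℕ) → α := fun u =>
    F (fun j => if hj : j < n + 1 then u.1 ⟨j, hj⟩ else 0,
      fun j => if hj : j < n + 1 then u.2 ⟨j, hj⟩ else 0)
  have hR : Continuous R := by
    refine Continuous.prodMk ?_ ?_
    · exact continuous_pi fun j => (continuous_apply _).comp continuous_fst
    · exact continuous_pi fun j => (continuous_apply _).comp continuous_snd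
  have hG : Continuous G := continuous_of_discreteTopology
  have : F = G ∘ R := by
    funext g
    obtain ⟨g, k⟩ := g
    refine h _ _ _ _ ?_ ?_ <;>
    · intro j hj
      have : j < n + 1 := by omega
      simp [R, this]
  rw [this]
  exact hG.comp hR

theorem lsc_sig (f : ℕ → ℝ≥0∞) : LowerSemicontinuous (sig f) := by
  classical
  unfold sig
  refine lowerSemicontinuous_tsum fun n => Continuous.lowerSemicontinuous ?_
  refine continuous_of_local n ?_
  intro g g' h
  have : Miss g n ↔ Miss g' n := by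
    unfold Miss
    exact forall₂_congr fun j hj => by rw [h j hj]
  simp [this]

theorem lsc_kap (f : ℕ → ℝ≥0∞) :
    LowerSemicontinuous (fun p : (ℕ → ℕ) × (ℕ → ℕ) => kap f p.1 p.2) := by
  classical
  unfold kap
  refine lowerSemicontinuous_tsum fun n => Continuous.lowerSemicontinuous ?_
  refine continuous_of_local₂ n ?_
  intro g g' h h' hg hh
  have : Miss h n ↔ Miss h' n := by
    unfold Miss
    exact forall₂_congr fun j hj => by rw [hh j hj]
  simp [this, hg n le_rfl]

theorem rho_add_kap {f : ℕ → ℝ≥0∞} (hf : Antitone f) {g h : ℕ → ℕ} (hg : StrictMono g) :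
    rho f g h + kap f g h = sig f h := by
  classical
  unfold rho kap sig
  rw [← ENNReal.tsum_add]
  refine tsum_congr fun n => ?_
  by_cases hn : Miss h n
  · simp only [hn, if_true]
    exact add_tsub_cancel_of_le (hf (hg.id_le n))
  · simp [hn]

theorem sig_eq {f : ℕ → ℝ≥0∞} {g : ℕ → ℕ} (hg : StrictMono g) :
    sig f g = ∑' i : ((range g)ᶜ : Set ℕ), f i := by
  classical
  unfold sig
  rw [tsum_subtype]
  refine tsum_congr fun n => ?_
  by_cases hn : Miss g n
  · have : n ∈ (range g)ᶜ := (miss_iff hg n).1 hn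
    simp [hn, this, Set.indicator_of_mem]
  · have : n ∉ (range g)ᶜ := fun h => hn ((miss_iff hg n).2 h)
    simp [hn, Set.indicator_of_notMem this]

theorem rho_eq {f : ℕ → ℝ≥0∞} {g h : ℕ → ℕ} (hh : StrictMono h) :
    rho f g h = ∑' i : ((range h)ᶜ : Set ℕ), f (g i) := by
  classical
  unfold rho
  rw [tsum_subtype ((range h)ᶜ) (fun i => f (g i))]
  refine tsum_congr fun n => ?_
  by_cases hn : Miss h n
  · have : n ∈ (range h)ᶜ := (miss_iff hh n).1 hn
    simp [hn, this, Set.indicator_of_mem]
  · have : n ∉ (range h)ᶜ := fun h' => hn ((miss_iff hh n).2 h')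
    simp [hn, Set.indicator_of_notMem this]

theorem sig_comp {f : ℕ → ℝ≥0∞} {g h : ℕ → ℕ} (hg : StrictMono g) (hh : StrictMono h) :
    sig f (g ∘ h) = sig f g + rho f g h := by
  rw [sig_eq (hg.comp hh), sig_eq hg, rho_eq hh]
  have hset : (range (g ∘ h))ᶜ = (range g)ᶜ ∪ g '' (range h)ᶜ := by
    ext i
    simp only [mem_compl_iff, mem_union, mem_image, mem_range, Function.comp]
    constructor
    · intro hi
      by_cases hgi : ∃ y, g y = i
      · obtain ⟨y, rfl⟩ := hgi
        right
        refine ⟨y, ?_, rfl⟩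
        rintro ⟨z, rfl⟩
        exact hi ⟨z, rfl⟩
      · left; exact hgi
    · rintro (hi | ⟨y, hy, rfl⟩)
      · rintro ⟨z, rfl⟩
        exact hi ⟨_, rfl⟩
      · rintro ⟨z, hz⟩
        exact hy ⟨z, hg.injective hz⟩
  have hdisj : Disjoint (range g)ᶜ (g '' (range h)ᶜ) := by
    rw [Set.disjoint_left]
    rintro _ h1 ⟨y, -, rfl⟩
    exact h1 ⟨y, rfl⟩
  rw [hset]
  rw [ENNReal.summable.tsum_union_disjoint (f := f) hdisj ENNReal.summable]
  rw [tsum_image f hg.injective.injOn]

end Q17.EndN
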